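import Mathlib
import Pool.Agent.V11279.BAf

set_option autoImplicit false

/-!
# MP_0c6837_al: a faithful, minimal, strongly proximal action of a free group of finite rank which
is not topologically free
-/

namespace Pool.Agent.Results.MP_0c6837_al.NotTopFree

open MeasureTheory

/-- The action of `G` on the topological space `X` is strongly proximal: for every Borel probability
measure `μ` on `X`, the closure of the orbit `{g_* μ : g ∈ G}` (in the space of Borel probability
measures with the topology of weak convergence) contains a Dirac measure. -/
def StronglyProximal (G X : Type) [Group G] [TopologicalSpace X] [MeasurableSpace X] [BorelSpace X]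
    [MulAction G X] : Prop :=
  ∀ μ : ProbabilityMeasure X, ∃ x : X, diracProba x ∈
    closure {ν : ProbabilityMeasure X | ∃ g : G,
      (ν : Measure X) = Measure.map (fun y => g • y) (μ : Measure X)}

/-- The action is topologically free: the points with trivial stabilizer are dense. -/
def TopologicallyFree (G X : Type) [Group G] [TopologicalSpace X] [MulAction G X] : Prop :=
  Dense {x : X | MulAction.stabilizer G x = ⊥}

/-- There are a nonempty compact Hausdorff space `X` and an action by homeomorphisms of the free
group of rank `6` on `X` which is faithful, minimal and strongly proximal, but not topologically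
free. -/
theorem result : ∃ (X : Type) (_ : TopologicalSpace X) (_ : CompactSpace X) (_ : T2Space X)
    (_ : Nonempty X) (_ : MeasurableSpace X) (_ : BorelSpace X) (_ : MulAction (FreeGroup (Fin 6)) X),
    (∀ g : FreeGroup (Fin 6), Continuous fun x : X => g • x) ∧
    (∀ g : FreeGroup (Fin 6), (∀ x : X, g • x = x) → g = 1) ∧
    (∀ x : X, Dense (MulAction.orbit (FreeGroup (Fin 6)) x)) ∧
    StronglyProximal (FreeGroup (Fin 6)) X ∧
    ¬ TopologicallyFree (FreeGroup (Fin 6)) X :=
  Pool.Agent.V11279.BA.main

end Pool.Agent.Results.MP_0c6837_al.NotTopFree
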